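import Pool.Agent.Helper35.HS3.GoalsA

/-!
# Project HS3, packet POLE: the Newton kernel is harmonic off its pole
-/

namespace Pool.Agent.Helper46.HS3.POLE

open Pool.Agent.Helper35.HS3
open MeasureTheory Set Filter Topology Metric
open scoped ContDiff

theorem pd_q (y : E) (i : Fin 3) (z : E) :
    pd i (fun z : E => ‖z - y‖ ^ 2) z = 2 * (z i - y i) := by
  have h1 : HasFDerivAt (fun z : E => z - y) (ContinuousLinearMap.id ℝ E) z :=
    (hasFDerivAt_id z).sub_const y
  have h2 := (hasStrictFDerivAt_norm_sq (z - y)).hasFDerivAt.comp z h1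
  have h3 : HasFDerivAt (fun z : E => ‖z - y‖ ^ 2)
    ((2 • (innerSL ℝ (z - y))).comp (ContinuousLinearMap.id ℝ E)) z := h2
  rw [HasFDerivAt.pd h3]
  have h4 := inner_bv (z - y) i
  simp only [ContinuousLinearMap.comp_id, ContinuousLinearMap.smul_apply, innerSL_apply_apply, h4]
  simp

theorem lap_q (y : E) (z : E) : lap (fun z : E => ‖z - y‖ ^ 2) z = 6 := by
  unfold lap
  have h : ∀ i : Fin 3, pd i (pd i (fun z : E => ‖z - y‖ ^ 2)) z = 2 := by
    intro i
    have e : pd i (fun z : E => ‖z - y‖ ^ 2) = fun z => 2 * (z i - y i) := by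
      funext z; exact pd_q y i z
    rw [e]
    have hd : DifferentiableAt ℝ (fun z : E => z i) z :=
      (contDiff_coord i (n := 1)).contDiffAt.differentiableAt (by norm_num)
    rw [pd_const_mul 2 (hd.sub_const _), pd_sub hd (differentiableAt_const _), pd_coord, pd_const]
    norm_num
  rw [Finset.sum_congr rfl fun i _ => h i]
  simp
  norm_num

theorem gsq_q (y : E) (z : E) : gsq (fun z : E => ‖z - y‖ ^ 2) z = 4 * ‖z - y‖ ^ 2 := by
  unfold gsq
  rw [norm_sq_eq, Finset.mul_sum]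
  refine Finset.sum_congr rfl fun i _ => ?_
  rw [pd_q]
  simp only [PiLp.sub_apply]
  ring

theorem proof : POLE_stmt := by
  intro y x hxy
  have hq : ContDiff ℝ 2 (fun z : E => ‖z - y‖ ^ 2) := (contDiff_id.sub contDiff_const).norm_sq ℝ
  have hpos : 0 < ‖x - y‖ := norm_pos_iff.mpr (sub_ne_zero.mpr hxy)
  have hpos2 : 0 < ‖x - y‖ ^ 2 := by positivity
  refine ⟨?_, ?_⟩
  · refine ContDiffAt.inv ?_ hpos.ne'
    exact ContDiffAt.norm ℝ (contDiffAt_id.sub contDiffAt_const) (sub_ne_zero.mpr hxy)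
  · have heq : (fun z : E => ‖z - y‖⁻¹) = fun z => (fun t => (√t)⁻¹) (‖z - y‖ ^ 2) := by
      funext z
      simp only [Real.sqrt_sq (norm_nonneg _)]
    have hH : ∀ t : ℝ, 0 < t → HasDerivAt (fun t => (√t)⁻¹) (-(2 * (t * √t))⁻¹) t := by
      intro t ht
      have h1 := (Real.hasDerivAt_sqrt ht.ne').inv (Real.sqrt_pos.mpr ht).ne'
      refine h1.congr_deriv ?_
      have hs : √t ^ 2 = t := Real.sq_sqrt ht.le
      have hs0 : √t ≠ 0 := (Real.sqrt_pos.mpr ht).ne'
      rw [hs]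
      field_simp
    have hH' : ∀ t : ℝ, 0 < t → HasDerivAt (fun t => -(2 * (t * √t))⁻¹) (3 / (4 * (t ^ 2 * √t))) t := by
      intro t ht
      have hs : √t ^ 2 = t := Real.sq_sqrt ht.le
      have hs0 : √t ≠ 0 := (Real.sqrt_pos.mpr ht).ne'
      have h1 : HasDerivAt (fun t : ℝ => 2 * (t * √t)) (2 * (1 * √t + t * (1 / (2 * √t)))) t :=
        (((hasDerivAt_id t).mul (Real.hasDerivAt_sqrt ht.ne')).const_mul 2)
      have h2 := (h1.inv (by positivity)).neg
      refine h2.congr_deriv ?_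
      have e : t * (1 / (2 * √t)) = √t / 2 := by
        field_simp
        exact hs.symm
      rw [e]
      field_simp
      nlinarith [hs]
    rw [heq]
    have hev : ∀ᶠ t in 𝓝 (‖x - y‖ ^ 2), HasDerivAt (fun t => (√t)⁻¹) (-(2 * (t * √t))⁻¹) t := by
      filter_upwards [lt_mem_nhds hpos2] with t ht using hH t ht
    rw [lap_comp (H := fun t => (√t)⁻¹) (H' := fun t => -(2 * (t * √t))⁻¹)
      (u := fun z : E => ‖z - y‖ ^ 2) hev (hH' _ hpos2) hq.contDiffAt, lap_q, gsq_q]
    have hs0 : √(‖x - y‖ ^ 2) ≠ 0 := (Real.sqrt_pos.mpr hpos2).ne'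
    field_simp
    ring

end Pool.Agent.Helper46.HS3.POLE
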